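import Mathlib

/-!
Additive complements of the primes are not of logarithmic size: interface.

Theorem (target S16944): if A has at most C log N elements in [1,N] for all large N, then infinitely
many n are not of the form p + a with p prime and a in A.

Method: Selberg type weights summed over all families of positions a in A (repelling weights), with
many types of weight functions living on different scales.

Setting.  P is a finite set of primes, positions are natural numbers a, and for a prime p in P the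
residue class of m mod p for which p divides the number attached to the position a is `ρ p a`.
A set of primes R stands for the squarefree number with these prime factors.
-/

set_option autoImplicit false

open Finset

namespace Pool.Agent.H410R2.AC

/-- local factor of a (possibly absent) position: `1 - p` on its residue class, `1` elsewhere -/
noncomputable def psi (ρ : ℕ → ℕ → ℕ) (p : ℕ) (o : Option ℕ) (m : ℕ) : ℝ :=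
  match o with
  | none => 1
  | some a => if m % p = ρ p a then 1 - (p : ℝ) else 1

/-- weight of a squarefree number: one over Euler phi -/
noncomputable def wt (R : Finset ℕ) : ℝ := ∏ p ∈ R, (1 / ((p : ℝ) - 1))

/-- mass of a family -/
noncomputable def GG (S : Finset (Finset ℕ)) : ℝ := ∑ R ∈ S, wt R

/-- Selberg type function of a family at a position -/
noncomputable def FF (ρ : ℕ → ℕ → ℕ) (S : Finset (Finset ℕ)) (o : Option ℕ) (m : ℕ) : ℝ :=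
  ∑ R ∈ S, wt R * ∏ p ∈ R, psi ρ p o m

/-- product of `1 + 1/(p-1)` over P -/
noncomputable def Pi1 (P : Finset ℕ) : ℝ := ∏ p ∈ P, (1 + 1 / ((p : ℝ) - 1))

/-- size of the non-diagonal contributions for the positions in U -/
noncomputable def del (ρ : ℕ → ℕ → ℕ) (P U : Finset ℕ) : ℝ :=
  ∑ p ∈ P, 1 / ((p : ℝ) - 1) ^ 2 +
    ∑ p ∈ P.filter (fun p => ∃ a ∈ U, ∃ b ∈ U, a ≠ b ∧ ρ p a = ρ p b), 1 / ((p : ℝ) - 1)

/-- the positions used by a configuration -/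
def pos {T : Type} [Fintype T] (σ : T → Option ℕ) : Finset ℕ :=
  Finset.eraseNone (Finset.univ.image σ)

/-- a configuration uses each position at most once -/
def Inj {T : Type} (σ : T → Option ℕ) : Prop := ∀ τ τ' a, σ τ = some a → σ τ' = some a → τ = τ'

/-- product of the functions of a configuration -/
noncomputable def ZZ {T : Type} [Fintype T] (ρ : ℕ → ℕ → ℕ) (S : T → Finset (Finset ℕ))
    (σ : T → Option ℕ) (m : ℕ) : ℝ := ∏ τ, FF ρ (S τ) (σ τ) m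

/-- a position which cannot be diagonal: used by one configuration only (with a family without the
empty set), or used by both with disjoint families -/
def Defect {T : Type} [Fintype T] (S S' : T → Finset (Finset ℕ)) (σ σ' : T → Option ℕ) : Prop :=
  (∃ τ a, σ τ = some a ∧ a ∉ pos σ' ∧ ∅ ∉ S τ) ∨
  (∃ τ a, σ' τ = some a ∧ a ∉ pos σ ∧ ∅ ∉ S' τ) ∨
  (∃ τ τ' a, σ τ = some a ∧ σ' τ' = some a ∧ Disjoint (S τ) (S' τ'))

/-- the local expectation of the product of the local factors of those τ with p in R τ (R' τ) -/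
noncomputable def Ep {T : Type} [Fintype T] (ρ : ℕ → ℕ → ℕ) (σ σ' : T → Option ℕ)
    (R R' : T → Finset ℕ) (p : ℕ) : ℝ :=
  (∑ x ∈ range p, (∏ τ ∈ Finset.univ.filter (fun τ => p ∈ R τ), psi ρ p (σ τ) x) *
    ∏ τ ∈ Finset.univ.filter (fun τ => p ∈ R' τ), psi ρ p (σ' τ) x) / p

/-- the local model of the correlation of two configurations -/
noncomputable def LS {T : Type} [Fintype T] [DecidableEq T] (ρ : ℕ → ℕ → ℕ) (P : Finset ℕ)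
    (S S' : T → Finset (Finset ℕ)) (σ σ' : T → Option ℕ) : ℝ :=
  ∑ R ∈ Fintype.piFinset S, ∑ R' ∈ Fintype.piFinset S',
    (∏ τ, wt (R τ)) * (∏ τ, wt (R' τ)) * ∏ p ∈ P, Ep ρ σ σ' R R' p

/-- standing assumptions on a pair of configurations -/
def Std {T : Type} [Fintype T] (ρ : ℕ → ℕ → ℕ) (P : Finset ℕ)
    (S : T → Finset (Finset ℕ)) (σ : T → Option ℕ) : Prop :=
  Inj σ ∧ (∀ τ, σ τ = none → S τ = {∅}) ∧ (∀ τ, ∀ R ∈ S τ, R ⊆ P) ∧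
    (∀ p ∈ P, ∀ a ∈ pos σ, ρ p a < p)

/-- T1: sum over all divisors in the local model -/
def LocalSum : Prop := ∀ n : ℕ, ∃ K : ℝ, 0 ≤ K ∧
  ∀ (T : Type) [Fintype T] [DecidableEq T], Fintype.card T ≤ n →
  ∀ (P : Finset ℕ) (ρ : ℕ → ℕ → ℕ) (S S' : T → Finset (Finset ℕ)) (σ σ' : T → Option ℕ),
    (∀ p ∈ P, p.Prime) → Std ρ P S σ → Std ρ P S' σ' →
    (Defect S S' σ σ' → |LS ρ P S S' σ σ'| ≤
      K * Pi1 P ^ (pos σ ∩ pos σ').card * (Real.exp (K * del ρ P (pos σ ∪ pos σ')) - 1)) ∧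
    (σ = σ' → S = S' → |LS ρ P S S' σ σ' - ∏ τ, GG (S τ)| ≤
      K * Pi1 P ^ (pos σ ∩ pos σ').card * (Real.exp (K * del ρ P (pos σ ∪ pos σ')) - 1))

/-- T2: equidistribution (Chinese remainder theorem) for one choice of divisors -/
def Equi : Prop := ∀ (T : Type) [Fintype T] (P : Finset ℕ) (ρ : ℕ → ℕ → ℕ)
  (σ σ' : T → Option ℕ) (R R' : T → Finset ℕ), (∀ p ∈ P, p.Prime) →
  (∀ τ, R τ ⊆ P) → (∀ τ, R' τ ⊆ P) → ∀ X : ℕ,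
  |∑ m ∈ range X, (∏ τ, ∏ p ∈ R τ, psi ρ p (σ τ) m) * (∏ τ, ∏ p ∈ R' τ, psi ρ p (σ' τ) m) -
    X * ∏ p ∈ P, Ep ρ σ σ' R R' p| ≤
  2 * ((∏ τ, ∏ p ∈ R τ, (p : ℝ)) * ∏ τ, ∏ p ∈ R' τ, (p : ℝ)) ^ 2

/-- T3: correlation of two configurations -/
def Moment : Prop := ∀ n : ℕ, ∃ K : ℝ, 0 ≤ K ∧
  ∀ (T : Type) [Fintype T] [DecidableEq T], Fintype.card T ≤ n →
  ∀ (P : Finset ℕ) (ρ : ℕ → ℕ → ℕ) (S S' : T → Finset (Finset ℕ)) (σ σ' : T → Option ℕ)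
    (Y Y' : T → ℝ), (∀ p ∈ P, p.Prime) → Std ρ P S σ → Std ρ P S' σ' →
    (∀ τ, ∑ R ∈ S τ, wt R * (∏ p ∈ R, (p : ℝ)) ^ 2 ≤ Y τ) →
    (∀ τ, ∑ R ∈ S' τ, wt R * (∏ p ∈ R, (p : ℝ)) ^ 2 ≤ Y' τ) → ∀ X : ℕ,
    (Defect S S' σ σ' → |∑ m ∈ range X, ZZ ρ S σ m * ZZ ρ S' σ' m| ≤
      X * (K * Pi1 P ^ (pos σ ∩ pos σ').card * (Real.exp (K * del ρ P (pos σ ∪ pos σ')) - 1)) +
        2 * ((∏ τ, Y τ) * ∏ τ, Y' τ)) ∧
    (σ = σ' → S = S' → |∑ m ∈ range X, ZZ ρ S σ m * ZZ ρ S' σ' m - X * ∏ τ, GG (S τ)| ≤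
      X * (K * Pi1 P ^ (pos σ ∩ pos σ').card * (Real.exp (K * del ρ P (pos σ ∪ pos σ')) - 1)) +
        2 * ((∏ τ, Y τ) * ∏ τ, Y' τ))

/-- T4a: counting lemma -/
def CountMaps : Prop := ∀ (j : ℕ) (B : Finset ℕ) (V : ℝ), 0 ≤ V →
  ∑ h ∈ Fintype.piFinset (fun _ : Fin j => Finset.insertNone B), V ^ (pos h).card ≤
    (1 + j + B.card * V) ^ j

open Classical in
/-- configurations with positions in B -/
noncomputable def cfg (n : ℕ) (B : Finset ℕ) : Finset (Fin n → Option ℕ) :=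
  (Fintype.piFinset (fun _ : Fin n => Finset.insertNone B)).filter (fun σ => Inj σ)

/-- the term of a configuration: present positions carry the factor `-g` -/
noncomputable def term {n : ℕ} (x : Fin n → ℕ → ℝ) (σ : Fin n → Option ℕ) : ℝ :=
  ∏ τ, (match σ τ with
    | none => 1
    | some a => x τ a)

/-- product of q over the occupied types -/
noncomputable def occ {n : ℕ} (q : Fin n → ℝ) (σ : Fin n → Option ℕ) : ℝ :=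
  ∏ τ, (if σ τ = none then 1 else q τ)

/-- the weight with coefficients c -/
noncomputable def WW {n : ℕ} (B : Finset ℕ) (c : (Fin n → Option ℕ) → ℝ) (x : Fin n → ℕ → ℝ) : ℝ :=
  ∑ σ ∈ cfg n B, c σ * term x σ

/-- T4: second moments.  Here `x τ a = - g τ * FF ρ (S τ) (some a) m`. -/
def Second : Prop := ∀ (n : ℕ) (C : ℝ), 1 ≤ C → ∃ K : ℝ, 0 ≤ K ∧
  ∀ (P B : Finset ℕ) (ρ : ℕ → ℕ → ℕ) (S : Fin n → Finset (Finset ℕ)) (g Y : Fin n → ℝ) (V δ : ℝ),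
    (∀ p ∈ P, p.Prime) → 0 < V → V ≤ 1 → 0 ≤ δ → Pi1 P ≤ C / V → (B.card : ℝ) ≤ C / V →
    (∀ τ, 0 ≤ g τ ∧ g τ ≤ C * V) →
    (∀ τ, ∀ R ∈ S τ, R ⊆ P) → (∀ τ, ∅ ∉ S τ) → (∀ τ τ', τ ≠ τ' → Disjoint (S τ) (S τ')) →
    (∀ p ∈ P, ∀ a ∈ B, ρ p a < p) →
    (∀ U ⊆ B, U.card ≤ 2 * n + 1 → del ρ P U ≤ δ) →
    (∀ τ, 1 ≤ Y τ ∧ ∑ R ∈ S τ, wt R * (∏ p ∈ R, (p : ℝ)) ^ 2 ≤ Y τ) →
    (∀ (c : (Fin n → Option ℕ) → ℝ), (∀ σ, |c σ| ≤ 1) → ∀ X : ℕ,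
      |∑ m ∈ range X, WW B c (fun τ a => - g τ * FF ρ (S τ) (some a) m) ^ 2 -
        X * ∑ σ ∈ cfg n B, c σ ^ 2 * occ (fun τ => g τ ^ 2 * GG (S τ)) σ| ≤
      X * (K * (Real.exp (K * δ) - 1)) + K * ((B.card + 1 : ℝ) ^ (2 * n) * (∏ τ, Y τ) ^ 2)) ∧
    (∀ (S1 : Finset (Finset ℕ)) (Y1 : ℝ), (∀ R ∈ S1, R ⊆ P) → 1 ≤ Y1 →
      ∑ R ∈ S1, wt R * (∏ p ∈ R, (p : ℝ)) ^ 2 ≤ Y1 →
      ∀ a₀ ∈ B, ∀ (c : (Fin n → Option ℕ) → ℝ), (∀ σ, |c σ| ≤ 1) → ∀ X : ℕ,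
      |∑ m ∈ range X, (WW (B.erase a₀) c (fun τ a => - g τ * FF ρ (S τ) (some a) m) *
          FF ρ S1 (some a₀) m) ^ 2 -
        X * (GG S1 * ∑ σ ∈ cfg n (B.erase a₀), c σ ^ 2 * occ (fun τ => g τ ^ 2 * GG (S τ)) σ)| ≤
      X * (K / V * (Real.exp (K * δ) - 1)) +
        K * ((B.card + 1 : ℝ) ^ (2 * n) * (Y1 * ∏ τ, Y τ) ^ 2))

/-- the coefficient after inserting a prime -/
noncomputable def coef {n : ℕ} (β : Fin n → ℝ) (σ : Fin n → Option ℕ) : ℝ :=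
  ∑ τ, (if σ τ = none then 0 else β τ)

/-- T5a: at a prime position the weight collapses -/
def Collapse : Prop := ∀ (n : ℕ) (B : Finset ℕ) (a₀ : ℕ) (β : Fin n → ℝ) (x : Fin n → ℕ → ℝ),
  a₀ ∈ B → ∑ τ, β τ = 1 → (∀ τ, x τ a₀ = - β τ) →
  WW B (fun _ => 1) x = WW (B.erase a₀) (coef β) x

/-- T5b: the main term inequality -/
def MainIneq : Prop := ∀ (n : ℕ) (B : Finset ℕ) (a₀ : ℕ) (β q : Fin n → ℝ) (η : ℝ),
  (∀ τ, 0 ≤ β τ) → ∑ τ, β τ = 1 → (∀ τ, 0 ≤ q τ) → (∀ τ, B.card * q τ ≤ η) →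
  ∑ σ ∈ cfg n (B.erase a₀), coef β σ ^ 2 * occ q σ ≤ η * ∑ σ ∈ cfg n B, occ q σ ∧
  1 ≤ ∑ σ ∈ cfg n B, occ q σ

/-- the primes in (H,z] -/
def PP (H z : ℕ) : Finset ℕ := (range (z + 1)).filter (fun p => p.Prime ∧ H < p)

/-- T6: number theoretic estimates -/
def NT : Prop := ∃ C : ℝ, 1 ≤ C ∧
  (∀ H z : ℕ, 2 ≤ H → H ≤ z → Pi1 (PP H z) ≤ C * (Real.log z / Real.log H)) ∧
  (∀ H z Y : ℕ, 2 ≤ H → Y ≤ z → Real.log Y / Real.log H ≤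
    C * ∑ R ∈ (PP H z).powerset.filter (fun R : Finset ℕ => ∏ p ∈ R, p ≤ Y), wt R) ∧
  (∀ H z Y : ℕ, 2 ≤ H → H ≤ Y →
    ∑ R ∈ (PP H z).powerset.filter (fun R : Finset ℕ => ∏ p ∈ R, p ≤ Y), wt R ≤
      C * (Real.log Y / Real.log H)) ∧
  (∀ H z : ℕ, 1 ≤ H → ∑ p ∈ PP H z, (1 : ℝ) / ((p : ℝ) - 1) ^ 2 ≤ 2 / (H : ℝ)) ∧
  (∀ H z d N : ℕ, 2 ≤ H → 1 ≤ d → d ≤ N →
    ∑ p ∈ (PP H z).filter (fun p : ℕ => p ∣ d), (1 : ℝ) / ((p : ℝ) - 1) ≤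
      Real.log N / (H * Real.log H)) ∧
  (∀ (H : ℕ) (A : Finset ℕ), 2 ≤ H → ∃ b < primorial H,
    ((A.filter (fun a : ℕ => IsCoprime ((b : ℤ) - (a : ℤ)) (primorial H : ℤ))).card : ℝ) * Real.log H ≤
      A.card)

/-- T7: choice of the types -/
def Types : Prop := ∀ C η T : ℝ, 1 ≤ C → 0 < η → 0 < T →
  ∃ (n : ℕ) (u β : Fin n → ℝ) (V₀ : ℝ), 0 < V₀ ∧ (∀ τ, 0 < u τ ∧ 0 < β τ) ∧ ∑ τ, β τ = 1 ∧
    ∑ τ, u τ ≤ T ∧
    ∀ (V : ℝ) (Ω : Finset (Finset ℕ)) (ω sz : Finset ℕ → ℝ), 0 < V → V ≤ V₀ →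
      (∀ R ∈ Ω, 0 ≤ ω R ∧ ω R ≤ 1) →
      (∀ t : ℝ, V ≤ t → t ≤ T → t / (C * V) ≤ ∑ R ∈ Ω.filter (fun R => sz R ≤ t), ω R ∧
        ∑ R ∈ Ω.filter (fun R => sz R ≤ t), ω R ≤ C * t / V) →
      ∃ S : Fin n → Finset (Finset ℕ),
        (∀ τ, S τ ⊆ Ω.filter (fun R => V < sz R ∧ sz R ≤ u τ)) ∧
        (∀ τ τ', τ ≠ τ' → Disjoint (S τ) (S τ')) ∧
        ∀ τ, β τ ^ 2 / (η * V) ≤ ∑ R ∈ S τ, ω R

/-- T8a: the core theorem -/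
def Core : Prop := ∀ C : ℝ, 1 ≤ C → ∃ N₀ : ℕ, ∀ N : ℕ, N₀ ≤ N → ∀ H z : ℕ,
  H = ⌊Real.log N / 100⌋₊ → z = ⌊(N : ℝ) ^ (1 / 10 : ℝ)⌋₊ → ∀ (B : Finset ℕ) (Q b X : ℕ),
  (∀ a ∈ B, a ≤ N) → (B.card : ℝ) * Real.log H ≤ C * Real.log N → (∀ p ∈ PP H z, ¬ p ∣ Q) →
  (N : ℝ) ^ (1 / 2 : ℝ) ≤ X → ∀ E : Finset ℕ, (E.card : ℝ) ≤ (N : ℝ) ^ (1 / 4 : ℝ) →
  ∃ m < X, m ∉ E ∧ ∀ a ∈ B, ∃ p ∈ PP H z, (p : ℤ) ∣ (b : ℤ) + Q * m - a

/-- T8b: the final theorem (S16944) -/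
def Final : Prop := ¬ ∃ A : Set ℕ,
  (∃ M : ℕ, ∀ n : ℕ, M ≤ n → ∃ p a : ℕ, p.Prime ∧ a ∈ A ∧ n = p + a) ∧
  (∃ C : ℝ, ∃ N₀ : ℕ, ∀ N : ℕ, N₀ ≤ N →
    ((A ∩ Set.Icc 1 N).ncard : ℝ) ≤ C * Real.log N)

end Pool.Agent.H410R2.AC
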