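import Mathlib

/-!
Equal divisor counts on runs of consecutive integers: interface.

Goal: for every `m` there are infinitely many `y` with `d(y) = d(y+1) = ... = d(y+m-1)`.

Lines are the functions `e : Fin (k+1) → Fin b`; points are pairs `(l, x)` with `l : Fin (k+1)` and
`x : Fin k → Fin b`; the line `e` has for each level `l` exactly one point `pt l e`.
-/

set_option autoImplicit false

open Finset

namespace Pool.Agent.H410R2.ED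

/-- number of divisors -/
def dd (n : ℕ) : ℕ := n.divisors.card

/-- number of distinct prime factors -/
def om (n : ℕ) : ℕ := n.primeFactors.card

/-- lines -/
abbrev Ln (k b : ℕ) : Type := Fin (k + 1) → Fin b

/-- points -/
abbrev Pt (k b : ℕ) : Type := Fin (k + 1) × (Fin k → Fin b)

/-- the point of the line `e` at level `l` -/
def pt {k b : ℕ} (l : Fin (k + 1)) (e : Ln k b) : Pt k b := (l, fun i => e (l.succAbove i))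

/-- T1: combinatorial lemma -/
def Comb : Prop := ∀ (k b T : ℕ), 2 * (k + 1) * (T + 2) ^ (k + 2) ≤ b →
  ∃ ρ : Ln k b → Fin (k + 1) → ℕ,
    (∀ e l, 1 ≤ ρ e l ∧ ρ e l ≤ T + 1) ∧
    ∀ f : Pt k b → ℕ, 2 * ∑ p, f p ≤ T * b ^ k →
      ∃ e : Ln k b, ∀ l, ρ e l + f (pt l e) = T + 1

/-- T2: arithmetic design by the Chinese remainder theorem -/
def Design : Prop := ∀ (k b B : ℕ) (ρ : Ln k b → Fin (k + 1) → ℕ), (∀ e l, 1 ≤ ρ e l) →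
  ∃ (Q X : ℕ) (h σ : Ln k b → ℕ) (s : Pt k b → ℕ),
    0 < Q ∧ (∀ p, p.Prime → p ≤ B → p ∣ Q) ∧ (∀ e, 0 < h e) ∧ (∀ e, h e ∣ Q) ∧
    (∀ e l, s (pt l e) = (l : ℕ) * h e + σ e) ∧
    ∀ Y, Y ≡ X [MOD Q] → ∀ e, h e ∣ Y + σ e ∧
      ∀ l : Fin (k + 1),
        dd (h e) * dd ((Y + σ e) / h e + l) = 2 ^ ρ e l * dd (Y + s (pt l e))

/-- T3: equalizer -/
def Equalize : Prop := ∀ (ι : Type) [Fintype ι] (s : ι → ℕ) (Q X : ℕ), 0 < Q →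
  ∃ (Q' X' U : ℕ) (a b : ι → ℕ), 0 < Q' ∧ Q ∣ Q' ∧ X' ≡ X [MOD Q] ∧ 0 < U ∧
    (∀ i, 0 < a i) ∧ (∀ i, Nat.Coprime (a i) (b i)) ∧
    (∀ i p, p.Prime → p ∣ Q → p ∣ a i) ∧
    ∀ i n, dd (Q' * n + X' + s i) = U * dd (a i * n + b i)

/-- sifting primes -/
def Pr (κ J : ℕ) : Finset ℕ := (range (2 ^ 2 ^ J)).filter (fun l => l.Prime ∧ 2 * κ < l)

/-- T4: Brun-Hooley sieve of dimension `κ`, uniform in `κ` -/
def BHK : Prop := ∃ c : ℕ, 1 ≤ c ∧ ∀ κ : ℕ, 1 ≤ κ → ∀ g : ℕ → ℝ,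
  (∀ l, l.Prime → 0 ≤ g l ∧ g l ≤ (κ : ℝ) / l) →
  ∀ (J : ℕ) (Ω : Type) (S : Finset Ω) (n : Ω → ℕ) (X E : ℝ), 0 ≤ X → 0 ≤ E →
  (∀ D ⊆ Pr κ J, |((S.filter (fun ω => ∀ l ∈ D, l ∣ n ω)).card : ℝ) - X * ∏ l ∈ D, g l|
    ≤ (κ : ℝ) ^ D.card * E) →
  X / 2 * ∏ l ∈ Pr κ J, (1 - g l) - ((2 : ℝ) ^ 2 ^ J) ^ (c * κ) * E ≤
    ((S.filter (fun ω => ∀ l ∈ Pr κ J, ¬ l ∣ n ω)).card : ℝ) ∧
  ((S.filter (fun ω => ∀ l ∈ Pr κ J, ¬ l ∣ n ω)).card : ℝ) ≤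
    2 * X * ∏ l ∈ Pr κ J, (1 - g l) + ((2 : ℝ) ^ 2 ^ J) ^ (c * κ) * E

/-- T5: counting with the Chinese remainder theorem -/
def CountCRT : Prop := ∀ (D : Finset ℕ) (P : ℕ → ℕ → Prop) [∀ l, DecidablePred (P l)],
  (∀ l ∈ D, l.Prime) → (∀ l ∈ D, ∀ n, P l (n + l) ↔ P l n) → ∀ M N : ℕ,
  |(((Ico M (M + N)).filter (fun n => ∀ l ∈ D, P l n)).card : ℝ) -
    N * ∏ l ∈ D, ((((range l).filter (P l)).card : ℝ) / l)| ≤
    ∏ l ∈ D, (((range l).filter (P l)).card : ℝ)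

/-- T6: linear forms, squarefree with few prime factors on average -/
def SieveOmega : Prop := ∃ C : ℝ, 0 < C ∧ ∀ (ι : Type) [Fintype ι] (a b : ι → ℕ),
  2 ≤ Fintype.card ι → (∀ i, 0 < a i) → (∀ i, Nat.Coprime (a i) (b i)) →
  (∀ i p, p.Prime → p ≤ 2 * Fintype.card ι → p ∣ a i) →
  ∀ N : ℕ, ∃ n, N ≤ n ∧ (∀ i, Squarefree (a i * n + b i)) ∧
    ((∑ i, om (a i * n + b i) : ℕ) : ℝ) ≤ C * Fintype.card ι * Real.log (Fintype.card ι)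

/-- T7: the main theorem -/
def EqualRuns : Prop := ∀ m N : ℕ, ∃ y, N ≤ y ∧ ∀ j < m, dd (y + j) = dd y

end Pool.Agent.H410R2.ED
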